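import Pool.Agent.H746.GD.Final

/-!
# Compact groups all of whose dense pseudocompact subgroups are projectively w-compact

A compact group such that every G-delta-dense subgroup is projectively w-compact is metrizable
(ZFC, no commutativity assumption).
-/

set_option autoImplicit false

open Cardinal Set Filter Topology

universe u

namespace Pool.Agent.Results.MP_820cde_gt.GDeltaDenseMetrizable

open Pool.Agent.H746.GD

/-- The weight of a space: the least cardinality of a base of its topology. -/
noncomputable def weight (X : Type u) [TopologicalSpace X] : Cardinal.{u} :=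
  sInf {κ : Cardinal.{u} | ∃ B : Set (Set X), TopologicalSpace.IsTopologicalBasis B ∧ #B = κ}

/-- A space is w-compact if some compact subset of it, with the subspace topology, has the same
weight as the space. -/
def WCompact (X : Type u) [TopologicalSpace X] : Prop :=
  ∃ C : Set X, IsCompact C ∧ weight C = weight X

/-- A topological group is projectively w-compact if every Hausdorff topological group onto which
it admits a continuous surjective homomorphism is w-compact. -/
def ProjectivelyWCompact (D : Type u) [Group D] [TopologicalSpace D] : Prop :=
  ∀ (H : Type u) [Group H] [TopologicalSpace H] [IsTopologicalGroup H] [T2Space H] (f : D →* H),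
    Continuous f → Function.Surjective f → WCompact H

/-- A subgroup is G-delta-dense if it meets every nonempty G-delta subset. -/
def GDeltaDense {G : Type u} [Group G] [TopologicalSpace G] (D : Subgroup G) : Prop :=
  ∀ B : Set G, IsGδ B → B.Nonempty → ((D : Set G) ∩ B).Nonempty

theorem weight_mem (X : Type u) [TopologicalSpace X] :
    ∃ B : Set (Set X), TopologicalSpace.IsTopologicalBasis B ∧ #B = weight X :=
  csInf_mem (s := {κ : Cardinal.{u} | ∃ B : Set (Set X),
    TopologicalSpace.IsTopologicalBasis B ∧ #B = κ})
    ⟨_, _, TopologicalSpace.isTopologicalBasis_opens, rfl⟩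

theorem weight_le_aleph0_iff (X : Type u) [TopologicalSpace X] :
    weight X ≤ ℵ₀ ↔ SecondCountableTopology X := by
  constructor
  · intro h
    obtain ⟨B, hB, hBw⟩ := weight_mem X
    have : B.Countable := by
      rw [← Cardinal.le_aleph0_iff_set_countable, hBw]
      exact h
    exact hB.secondCountableTopology this
  · intro h
    obtain ⟨B, hBc, -, hB⟩ := TopologicalSpace.exists_countable_basis X
    have h1 : weight X ≤ #B := csInf_le' ⟨B, hB, rfl⟩
    exact h1.trans (Cardinal.le_aleph0_iff_set_countable.2 hBc)

/-- If every G-delta-dense subgroup of a compact group is projectively w-compact, then the group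
is metrizable. -/
theorem result (G : Type u) [Group G] [TopologicalSpace G] [IsTopologicalGroup G] [CompactSpace G]
    [T2Space G] (h : ∀ D : Subgroup G, GDeltaDense D → ProjectivelyWCompact D) :
    TopologicalSpace.MetrizableSpace G := by
  by_cases hG : SecondCountableTopology G
  · infer_instance
  exfalso
  obtain ⟨n, d, Φ, hΦ, h0, h1, h2⟩ := exists_data hG
  have hDr := D_le_range d Φ h0 h2
  have hdense : GDeltaDense (d.D.comap Φ) := by
    intro B hB hBne
    obtain ⟨O, hO, rfl⟩ := isGδ_iff_eq_iInter_nat.1 hB
    obtain ⟨x, hx⟩ := hBne
    rw [mem_iInter] at hx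
    obtain ⟨g, hg, hgD⟩ := gdelta_dense d Φ hΦ h1 h2 O hO x hx
    exact ⟨g, hgD, mem_iInter.2 hg⟩
  let f : d.D.comap Φ →* ULift.{u} d.D :=
    MulEquiv.ulift.symm.toMonoidHom.comp (Φ.subgroupComap d.D)
  have hf : Continuous f := by
    apply continuous_uliftUp.comp
    apply Continuous.subtype_mk
    exact hΦ.comp continuous_subtype_val
  have hfs : Function.Surjective f := by
    rintro ⟨⟨y, hy⟩⟩
    obtain ⟨g, hg⟩ := hDr hy
    refine ⟨⟨g, ?_⟩, ?_⟩
    · show Φ g ∈ d.D
      rw [hg]; exact hy
    · apply ULift.ext
      apply Subtype.ext
      exact hg
  obtain ⟨C, hC, hCw⟩ := h _ hdense (ULift.{u} d.D) f hf hfs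
  have hC2 : SecondCountableTopology C := by
    let C' : Set d.D := ULift.up ⁻¹' C
    have hC' : IsCompact C' := by
      have : C' = ULift.down '' C := by
        ext y
        constructor
        · intro hy
          exact ⟨ULift.up y, hy, rfl⟩
        · rintro ⟨y, hy, rfl⟩
          exact hy
      rw [this]
      exact hC.image continuous_uliftDown
    have hsc := d.secondCountable_compact (fun A hA => by
      obtain ⟨b, hb⟩ := exists_gt A hA
      exact ⟨b, fun a ha => (hb a ha).le⟩) C' hC'
    let e : C ≃ₜ C' :=
      { toFun := fun x => ⟨x.1.down, x.2⟩
        invFun := fun x => ⟨ULift.up x.1, x.2⟩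
        left_inv := fun _ => rfl
        right_inv := fun _ => rfl
        continuous_toFun := by
          apply Continuous.subtype_mk
          exact continuous_uliftDown.comp continuous_subtype_val
        continuous_invFun := by
          apply Continuous.subtype_mk
          exact continuous_uliftUp.comp continuous_subtype_val }
    exact e.isEmbedding.secondCountableTopology
  have hH2 : SecondCountableTopology (ULift.{u} d.D) := by
    rw [← weight_le_aleph0_iff, ← hCw, weight_le_aleph0_iff]
    exact hC2
  apply d.not_secondCountable exists_gt
  exact (Homeomorph.ulift (X := d.D)).symm.isEmbedding.secondCountableTopology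

end Pool.Agent.Results.MP_820cde_gt.GDeltaDenseMetrizable
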